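import Pool.Agent.X183.AT.Hyp
import Pool.Agent.X183.AT.Unip

/-!
# Affine tori of stable diffeomorphisms are hyperbolic

`DiffM n N r = Diff^r(N)` with the topology `strongTop n N r` (`Pool/Agent/H718R2/G0.lean`);
`OmegaStable`, `Per`: `Ω`-stability, periodic points (`Pool/Agent/TH80/OMS/Defs.lean`,
`SymDefs.lean`); `IsFlow`: smooth flow on `N` (`Pool/Agent/TH290/CL/Flow.lean`).
`W k = ℝ^k`; `act ψ w y` is `y` moved by the flows `ψ 0, …, ψ (k - 1)` for the times
`w 0, …, w (k - 1)`; `Aff k ψ A f L`: `L` is invariant under these flows, which commute on `L`, and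
under `f`, and `f (act ψ w y) = act ψ (A w) (f y)` on `L` (`Pool/Agent/X183/AT/Defs.lean`).
`AffTorus n F k m ψ A L`: `L` is a nonempty compact orbit of smooth flows of `N` which commute on
`L`, periodic under `F`, and the return map `F^m` is affine on `L` with linear part `A`
(`Pool/Agent/X183/AT/Defs.lean`).
-/

set_option autoImplicit false

open scoped Manifold ContDiff Topology

universe u

namespace Pool.Agent.Results.MP_4a0782_an.AffineTori

open Pool.Agent.H718R2.G Pool.Agent.TH80.OMS Pool.Agent.X183.AT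
open Pool.Agent.TH290.CL (IsFlow)

/-- `F` is structurally stable in `Diff^r(N)`: all `G` in a neighbourhood of `F` are topologically
conjugate to `F`. -/
def StructStable (n : ℕ) (N : Type u) [TopologicalSpace N] [ChartedSpace (V n) N] (r : ℕ∞)
    (F : DiffM n N r) : Prop :=
  ∃ U : Set (DiffM n N r), IsOpen[strongTop n N r] U ∧ F ∈ U ∧
    ∀ G ∈ U, ∃ h : N ≃ₜ N, ∀ x, h (F x) = G (h x)

/-- `A` has no (complex) eigenvalue of modulus one. -/
def IsHyp {k : ℕ} (A : W k →ₗ[ℝ] W k) : Prop :=
  ∀ μ : ℂ, ((LinearMap.charpoly A).map (algebraMap ℝ ℂ)).IsRoot μ → ‖μ‖ ≠ 1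

/-- Let `N` be a closed manifold, `1 ≤ r ≤ ∞` and let `F ∈ Diff^r(N)` be structurally stable or
`Ω`-stable.

(1) Let `L` be a compact orbit of smooth flows of `N` which commute on `L`, periodic under `F`, such
that the return map `F^m` is affine on `L` with linear part `A` (nothing is assumed off `L`). Every
`e` with `(A^q - 1)^j e = 0` for some `q ≥ 1` and `j`, that is, every sum of generalised eigenvectors
of `A` for roots of unity, is stationary: it moves no point of `L`. If moreover no `w ≠ 0` is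
stationary (so that `L` is an embedded torus of dimension `k`), then `A` has no eigenvalue of modulus
one, so that `F^m` is a hyperbolic affine map of the torus `L`, and `L` lies in the closure of the
periodic points of `F`.

(2) Let `L` be any set invariant under `F^m` and under smooth flows of `N` which commute on `L`, such
that `F^m` normalises them on `L`: `F^m (act w y) = act (A w) (F^m y)`. If `A` has an eigenvalue of
modulus one, then every fixed point of `F^m` in `L` is stationary for some `w ≠ 0`. -/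
theorem result (n : ℕ) (N : Type u) [TopologicalSpace N] [T2Space N] [CompactSpace N]
    [ChartedSpace (V n) N] [IsManifold (𝓡 n) ∞ N] (r : ℕ∞) (hr : 1 ≤ r) (F : DiffM n N r)
    (hF : StructStable n N r F ∨ OmegaStable n N r F) :
    (∀ (k m : ℕ) (ψ : ℕ → ℝ → N → N) (A : W k →ₗ[ℝ] W k) (L : Set N), AffTorus n F k m ψ A L →
      (∀ (q j : ℕ) (e : W k), 1 ≤ q → ((A ^ q - 1) ^ j) e = 0 →
        ∀ t : ℝ, ∀ y ∈ L, act ψ (t • e) y = y) ∧
      ((∀ w : W k, w ≠ 0 → ∀ y ∈ L, ∃ t : ℝ, act ψ (t • w) y ≠ y) →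
        IsHyp A ∧ L ⊆ closure (Per F))) ∧
    (∀ (k m : ℕ) (ψ : ℕ → ℝ → N → N) (A : W k →ₗ[ℝ] W k) (L : Set N), 1 ≤ m →
      (∀ i, IsFlow n N (ψ i)) → Aff k ψ A F^[m] L → ¬ IsHyp A →
      ∀ p ∈ L, F^[m] p = p → ∃ w : W k, w ≠ 0 ∧ ∀ t : ℝ, act ψ (t • w) p = p) := by
  have h : OmegaStable n N r F := by
    rcases hF with ⟨U, hU, hFU, h⟩ | h
    · refine ⟨U, hU, hFU, fun G hG => ?_⟩
      obtain ⟨e, he⟩ := h G hG
      exact Pool.Agent.Y504.CO.omegaConj_of_conj e he
    · exact h
  refine ⟨fun k m ψ A L hT => ⟨fun q j e hq he => ?_, fun hfree => ?_⟩,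
    fun k m ψ A L hm hψ hc hA p hp hFp => ?_⟩
  · exact unip_dir hr h hT.pos hT.flow hT.compact hT.disj hT.aff hT.orbit hq j e he
  · exact torus_main hr h hT.pos hT.flow hT.compact hT.nonempty hT.disj hT.aff hT.orbit hfree
  · by_contra hcon
    push Not at hcon
    exact hA fun μ hμ => hyp_at hr h hm hψ hc hp hFp hcon hμ

end Pool.Agent.Results.MP_4a0782_an.AffineTori
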