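import Pool.Agent.X183.PC.Main2
import Pool.Agent.X183.PC.Stab

/-!
# Stable diffeomorphisms and smooth closed curves

`DiffM n N r = Diff^r(N)` with the topology `strongTop n N r` (`Pool/Agent/H718R2/G0.lean`);
`Omega`, `OmegaStable`, `Per`: nonwandering set, `Ω`-stability, periodic points
(`Pool/Agent/TH80/OMS/Defs.lean`, `SymDefs.lean`); `Rec`: recurrent points
(`Pool/Agent/Y504/CO/Stm5.lean`); `IsHyperbolicPer`: hyperbolic periodic points
(`Pool/Agent/Y504/CO/Rob.lean`).
`IsClosedCurve n N C`: `C` is a nonconstant periodic orbit of a smooth flow on `N` (a smoothly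
embedded circle); `IsPerSet F C`: `F^m(C) ⊆ C` for some `m ≥ 1`, and `F^i(C)` does not meet `C` for
`0 < i < m` (`Pool/Agent/X183/PC/Main.lean`). `CurveRec n N r G`: `G` does not decrease some smooth
function `h` (for instance a constant), and all recurrent points of `G` whose orbit consists of
critical points of `h`, with at most countably many exceptions, are periodic or lie on smooth closed
curves which are periodic under `G` (`Pool/Agent/X183/PC/Main2.lean`).
-/

set_option autoImplicit false

open scoped Manifold ContDiff Topology

universe u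

namespace Pool.Agent.Results.MP_4a0782_an.PeriodicCurves

open Pool.Agent.H718R2.G Pool.Agent.TH80.OMS Pool.Agent.X183.PC
open Pool.Agent.Y504.CO (Rec IsHyperbolicPer)

/-- `F` is structurally stable in `Diff^r(N)`: all `G` in a neighbourhood of `F` are topologically
conjugate to `F`. -/
def StructStable (n : ℕ) (N : Type u) [TopologicalSpace N] [ChartedSpace (V n) N] (r : ℕ∞)
    (F : DiffM n N r) : Prop :=
  ∃ U : Set (DiffM n N r), IsOpen[strongTop n N r] U ∧ F ∈ U ∧
    ∀ G ∈ U, ∃ h : N ≃ₜ N, ∀ x, h (F x) = G (h x)

/-- Let `N` be a closed manifold, `1 ≤ r ≤ ∞` and let `F ∈ Diff^r(N)` be structurally stable or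
`Ω`-stable.

(1) Every smooth closed curve `C` which is periodic under `F` contains a periodic point, and all
recurrent points on `C` are periodic: the return map `F^m` of `C` has rational rotation number.

(2) Suppose that `F` is a limit in `Diff^r(N)` of diffeomorphisms `G` (for example `G = F`) which do
not decrease some smooth function `h` (depending on `G`, for example constant) and whose recurrent
points with orbits in the critical set of `h`, up to countably many, are periodic or lie on smooth
closed curves which are periodic under `G`. Then `Ω(F)` is finite and consists of hyperbolic periodic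
points; so `F` satisfies Axiom A. -/
theorem result (n : ℕ) (N : Type u) [TopologicalSpace N] [T2Space N] [CompactSpace N]
    [ChartedSpace (V n) N] [IsManifold (𝓡 n) ∞ N] (r : ℕ∞) (hr : 1 ≤ r) (F : DiffM n N r)
    (hF : StructStable n N r F ∨ OmegaStable n N r F) :
    (∀ C : Set N, IsClosedCurve n N C → IsPerSet F C →
      (C ∩ Per F).Nonempty ∧ C ∩ Rec F ⊆ Per F) ∧
    ((∀ U : Set (DiffM n N r), IsOpen[strongTop n N r] U → F ∈ U → ∃ G ∈ U, CurveRec n N r G) →
      (Omega F).Finite ∧ ∀ p ∈ Omega F, IsHyperbolicPer n F p) := by
  have h : OmegaStable n N r F := by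
    rcases hF with ⟨U, hU, hFU, h⟩ | h
    · refine ⟨U, hU, hFU, fun G hG => ?_⟩
      obtain ⟨e, he⟩ := h G hG
      exact Pool.Agent.Y504.CO.omegaConj_of_conj e he
    · exact h
  refine ⟨fun C hC hP => ⟨curve_per hr h hC hP, fun x hx => curve_main hr h hC hP hx.1 hx.2⟩,
    fun hcl => ?_⟩
  obtain ⟨h1, h2⟩ := limit_main hr h hcl
  exact ⟨h1.1, h2⟩

end Pool.Agent.Results.MP_4a0782_an.PeriodicCurves
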