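import Pool.Agent.X183.QP.Tor

/-!
# Stable diffeomorphisms have no quasi-periodic tori

`DiffM n N r = Diff^r(N)` with the topology `strongTop n N r` (`Pool/Agent/H718R2/G0.lean`);
`Omega`, `OmegaStable`, `Per`: nonwandering set, `Ω`-stability, periodic points
(`Pool/Agent/TH80/OMS/Defs.lean`, `SymDefs.lean`); `Rec`: recurrent points
(`Pool/Agent/Y504/CO/Stm5.lean`); `IsHyperbolicPer`: hyperbolic periodic points
(`Pool/Agent/Y504/CO/Rob.lean`); `IsFlow`: smooth flow on `N` (`Pool/Agent/TH290/CL/Flow.lean`).
`mv ψ w k y` is `y` moved by the flows `ψ 0, …, ψ (k - 1)` for the times `w 0, …, w (k - 1)`;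
`Comm k ψ f L`: `L` is invariant under these flows and `f`, which commute on `L`
(`Pool/Agent/X183/QP/Main.lean`).
`IsQPTorus n N F L`: `L` is a compact orbit with more than one point of smooth flows of `N` which
commute on `L`, periodic under `F`, and the return map `F^m` commutes with the flows on `L`, so that
it acts on `L` as a translation (`Pool/Agent/X183/QP/Tor.lean`). `TorusRec n N r G`: `G` does not
decrease some smooth function `h`, and all recurrent points of `G` whose orbit consists of critical
points of `h`, with at most countably many exceptions, are periodic or lie on smooth closed curves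
which are periodic under `G` (`CurvePts`, `Pool/Agent/X183/PC/Main2.lean`) or on quasi-periodic tori
of `G` (`TorusPts`).
-/

set_option autoImplicit false

open scoped Manifold ContDiff Topology

universe u

namespace Pool.Agent.Results.MP_4a0782_an.QuasiPeriodicTori

open Pool.Agent.H718R2.G Pool.Agent.TH80.OMS Pool.Agent.X183.QP
open Pool.Agent.TH290.CL (IsFlow)
open Pool.Agent.Y504.CO (IsHyperbolicPer)

/-- `F` is structurally stable in `Diff^r(N)`: all `G` in a neighbourhood of `F` are topologically
conjugate to `F`. -/
def StructStable (n : ℕ) (N : Type u) [TopologicalSpace N] [ChartedSpace (V n) N] (r : ℕ∞)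
    (F : DiffM n N r) : Prop :=
  ∃ U : Set (DiffM n N r), IsOpen[strongTop n N r] U ∧ F ∈ U ∧
    ∀ G ∈ U, ∃ h : N ≃ₜ N, ∀ x, h (F x) = G (h x)

/-- Let `N` be a closed manifold, `1 ≤ r ≤ ∞` and let `F ∈ Diff^r(N)` be structurally stable or
`Ω`-stable.

(1) There are no quasi-periodic tori: no compact orbit `L` with more than one point of smooth flows
of `N` which commute on `L` is periodic under `F` with a return map `F^m` that commutes on `L` with
the flows (nothing is assumed off `L`).

(2) No slow drift: let `L` be compact, `F^m(L) ⊆ L`, `F^i(L)` disjoint from `L` for `0 < i < m`, and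
let `L` be invariant under smooth flows `ψ 0, …, ψ (k - 1)` of `N` which commute on `L` with each
other and with `F^m`. Then there is `δ > 0` such that every `x ∈ L` whose image under `F^{mq}`,
`q ≥ 1`, is obtained by moving `x` with the flows for times of absolute value at most `δ q`, is
stationary for all the flows.

(3) Suppose that `F` is a limit in `Diff^r(N)` of diffeomorphisms `G` (for example `G = F`) which do
not decrease some smooth function `h` (depending on `G`, for example constant) and whose recurrent
points with orbits in the critical set of `h`, up to countably many, are periodic or lie on smooth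
closed curves which are periodic under `G`, or on quasi-periodic tori of `G`. Then `Ω(F)` is finite
and consists of hyperbolic periodic points; so `F` satisfies Axiom A. -/
theorem result (n : ℕ) (N : Type u) [TopologicalSpace N] [T2Space N] [CompactSpace N]
    [ChartedSpace (V n) N] [IsManifold (𝓡 n) ∞ N] (r : ℕ∞) (hr : 1 ≤ r) (F : DiffM n N r)
    (hF : StructStable n N r F ∨ OmegaStable n N r F) :
    (∀ L : Set N, ¬ IsQPTorus n N F L) ∧
    (∀ (k m : ℕ) (ψ : ℕ → ℝ → N → N) (L : Set N), 1 ≤ m → (∀ i, IsFlow n N (ψ i)) → IsCompact L →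
      (∀ i, 1 ≤ i → i < m → Disjoint (F^[i] '' L) L) → Comm k ψ F^[m] L →
      ∃ δ : ℝ, 0 < δ ∧ ∀ x ∈ L, ∀ q : ℕ, 1 ≤ q → ∀ w : ℕ → ℝ, (∀ i < k, |w i| ≤ δ * q) →
        F^[m * q] x = mv ψ w k x → ∀ i < k, ∀ t, ψ i t x = x) ∧
    ((∀ U : Set (DiffM n N r), IsOpen[strongTop n N r] U → F ∈ U → ∃ G ∈ U, TorusRec n N r G) →
      (Omega F).Finite ∧ ∀ p ∈ Omega F, IsHyperbolicPer n F p) := by
  have h : OmegaStable n N r F := by
    rcases hF with ⟨U, hU, hFU, h⟩ | h
    · refine ⟨U, hU, hFU, fun G hG => ?_⟩
      obtain ⟨e, he⟩ := h G hG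
      exact Pool.Agent.Y504.CO.omegaConj_of_conj e he
    · exact h
  refine ⟨fun L hL => no_torus hr h hL, fun k m ψ L hm hψ hL hdis hc =>
    drift hr h hm hψ hL hdis hc, fun hcl => ?_⟩
  obtain ⟨h1, h2⟩ := limit_torus hr h hcl
  exact ⟨h1.1, h2⟩

end Pool.Agent.Results.MP_4a0782_an.QuasiPeriodicTori
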